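import Pool.Agent.Helper89.UB.Stmts

set_option autoImplicit false

/-! # The function `e^z - 1` on a circle -/

namespace Pool.Agent.Helper89.UB

theorem sd2_exp (ρ : ℝ) (hρ : 4 ≤ ρ) :
    (8 / 3) * ρ * Real.exp ρ ≤ (Real.exp ρ - 1) ^ 2 := by
  have h1 : 1 + ρ + ρ ^ 2 / 2 ≤ Real.exp ρ := Real.quadratic_le_exp_of_nonneg (by linarith)
  have h2 : 1 + 3 * ρ ≤ Real.exp ρ := by nlinarith
  have h3 : (0 : ℝ) < Real.exp ρ := Real.exp_pos _
  have h4 : (8 / 3) * ρ ≤ Real.exp ρ - 2 := by linarith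
  nlinarith [mul_le_mul_of_nonneg_right h4 h3.le]

theorem sd2_real (ρ c b : ℝ) (hρ : 4 ≤ ρ) (hc1 : c ≤ 1) (hc2 : -1 ≤ c)
    (hb : b ^ 2 ≤ ρ ^ 2 * (1 - c ^ 2)) :
    (Real.exp (ρ * c) - 1) ^ 2 + 2 * Real.exp (ρ * c) * (1 - Real.cos b) ≤
      ((Real.exp ρ - 1) * Real.exp (-(ρ * (1 - c) / 8))) ^ 2 := by
  have hE := sd2_exp ρ hρ
  have hE0 : (0 : ℝ) < Real.exp ρ := Real.exp_pos _
  set E := Real.exp ρ with hEdef
  set x := ρ * (1 - c) with hx
  have hx0 : 0 ≤ x := mul_nonneg (by linarith) (by linarith)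
  have hx2 : x ≤ 2 * ρ := by rw [hx]; nlinarith
  have hF : Real.exp (ρ * c) = E * Real.exp (-x) := by
    rw [hEdef, ← Real.exp_add]
    congr 1
    rw [hx]
    ring
  have hR : ((E - 1) * Real.exp (-(x / 8))) ^ 2 = (E - 1) ^ 2 * Real.exp (-(x / 4)) := by
    rw [mul_pow, ← Real.exp_nat_mul]
    congr 2
    push_cast
    ring
  have hcos0 : 2 * (1 - Real.cos b) ≤ b ^ 2 := by
    have := Real.one_sub_sq_div_two_le_cos (x := b)
    linarith
  have hcos1 : 2 * (1 - Real.cos b) ≤ 4 := by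
    have := Real.neg_one_le_cos b
    linarith
  have hcos2 : 0 ≤ 1 - Real.cos b := by
    have := Real.cos_le_one b
    linarith
  rw [hR, hF]
  set y := Real.exp (-x) with hy
  have hy0 : 0 < y := Real.exp_pos _
  have hy1 : y ≤ 1 := by
    rw [hy]
    exact Real.exp_le_one_iff.2 (by linarith)
  rcases le_or_gt x ρ with hxρ | hxρ
  · have hbx : b ^ 2 ≤ 2 * ρ * x := by
      refine hb.trans ?_
      rw [hx]
      have : ρ ^ 2 * (1 - c ^ 2) = ρ ^ 2 * (1 - c) * (1 + c) := by ring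
      rw [this]
      have h1 : 0 ≤ ρ ^ 2 * (1 - c) := mul_nonneg (sq_nonneg _) (by linarith)
      nlinarith
    have hEy : 1 ≤ E * y := by
      rw [hEdef, hy, ← Real.exp_add]
      exact Real.one_le_exp (by linarith)
    have h1 : (E * y - 1) ^ 2 ≤ (E - 1) ^ 2 * y ^ 2 := by
      rw [← mul_pow]
      apply pow_le_pow_left₀ (by linarith)
      nlinarith
    have h2 : 2 * (E * y) * (1 - Real.cos b) ≤ E * y * (2 * ρ * x) := by
      have h3 : 2 * (1 - Real.cos b) ≤ 2 * ρ * x := hcos0.trans hbx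
      have h4 : 0 ≤ E * y := by positivity
      nlinarith
    have h3 : (1 + 3 * x / 4) * y ≤ Real.exp (-(x / 4)) := by
      have h4 : Real.exp (-(x / 4)) = Real.exp (3 * x / 4) * y := by
        rw [hy, ← Real.exp_add]
        congr 1
        ring
      rw [h4]
      apply mul_le_mul_of_nonneg_right _ hy0.le
      have := Real.add_one_le_exp (3 * x / 4)
      linarith
    have h5 : y ^ 2 + 3 * x / 4 * y ≤ Real.exp (-(x / 4)) := by nlinarith
    have h6 : (E - 1) ^ 2 * (y ^ 2 + 3 * x / 4 * y) ≤ (E - 1) ^ 2 * Real.exp (-(x / 4)) :=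
      mul_le_mul_of_nonneg_left h5 (sq_nonneg _)
    have h7 : (8 / 3) * ρ * E * (3 * x / 4 * y) ≤ (E - 1) ^ 2 * (3 * x / 4 * y) :=
      mul_le_mul_of_nonneg_right hE (by positivity)
    nlinarith
  · have hEy : E * y ≤ 1 := by
      rw [hEdef, hy, ← Real.exp_add]
      exact Real.exp_le_one_iff.2 (by linarith)
    have hEy0 : 0 < E * y := by positivity
    have h1 : (E * y - 1) ^ 2 ≤ 1 := by nlinarith
    have h2 : 2 * (E * y) * (1 - Real.cos b) ≤ 4 := by nlinarith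
    have h3 : Real.exp (-(ρ / 2)) ≤ Real.exp (-(x / 4)) :=
      Real.exp_le_exp.2 (by linarith)
    have h4 : E * Real.exp (-(ρ / 2)) = Real.exp (ρ / 2) := by
      rw [hEdef, ← Real.exp_add]
      congr 1
      ring
    have h5 : 1 ≤ Real.exp (ρ / 2) := Real.one_le_exp (by linarith)
    have h6 : (8 / 3) * ρ * E * Real.exp (-(ρ / 2)) ≤ (E - 1) ^ 2 * Real.exp (-(x / 4)) :=
      mul_le_mul hE h3 (Real.exp_pos _).le (sq_nonneg _)
    have h7 : (8 / 3) * ρ * E * Real.exp (-(ρ / 2)) = (8 / 3) * ρ * Real.exp (ρ / 2) := by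
      rw [← h4]
      ring
    nlinarith

theorem sd2_norm (ρ t : ℝ) : ‖Complex.exp (zt ρ t) - 1‖ ^ 2 =
    (Real.exp (ρ * Real.cos t) - 1) ^ 2 +
      2 * Real.exp (ρ * Real.cos t) * (1 - Real.cos (ρ * Real.sin t)) := by
  have hre : (zt ρ t).re = ρ * Real.cos t := by
    simp [zt, Complex.exp_ofReal_mul_I_re]
  have him : (zt ρ t).im = ρ * Real.sin t := by
    simp [zt, Complex.exp_ofReal_mul_I_im]
  rw [← Complex.normSq_eq_norm_sq, Complex.normSq_apply, Complex.sub_re, Complex.sub_im,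
    Complex.exp_re, Complex.exp_im, Complex.one_re, Complex.one_im, hre, him]
  have h := Real.sin_sq_add_cos_sq (ρ * Real.sin t)
  linear_combination (Real.exp (ρ * Real.cos t)) ^ 2 * h

theorem st_SD2 : ST_SD2 := by
  intro ρ t hρ
  have hE1 : 0 < Real.exp ρ - 1 := by
    have := Real.add_one_le_exp ρ
    linarith
  have hden : ‖Complex.exp (ρ : ℂ) - 1‖ = Real.exp ρ - 1 := by
    have : Complex.exp (ρ : ℂ) - 1 = ((Real.exp ρ - 1 : ℝ) : ℂ) := by
      push_cast
      rfl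
    rw [this, Complex.norm_real, Real.norm_of_nonneg hE1.le]
  rw [norm_div, hden, div_le_iff₀ hE1]
  have h := sd2_real ρ (Real.cos t) (ρ * Real.sin t) hρ (Real.cos_le_one t)
    (Real.neg_one_le_cos t) (by
      have := Real.sin_sq_add_cos_sq t
      rw [mul_pow]
      have h2 : Real.sin t ^ 2 = 1 - Real.cos t ^ 2 := by linarith
      rw [h2])
  rw [← sd2_norm] at h
  have h0 : 0 ≤ (Real.exp ρ - 1) * Real.exp (-(ρ * (1 - Real.cos t) / 8)) := by positivity
  rw [mul_comm]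
  exact (abs_le.1 (abs_le_of_sq_le_sq h h0)).2

end Pool.Agent.Helper89.UB
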